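import Mathlib

/-!
# MP_89ca7b_co, Q1: the answer is no

`G(m, t)` consists of a hole `h_0, ..., h_{m+4}` and three cliques `B`, `C`, `D` with `t + 2` vertices
each. `C` is complete to the hole, `B` is complete to `D`, `c_i` is adjacent to `d_i` only among `D`,
`b_i` is adjacent to `c_j` iff `i ≠ j`, the vertex `b_0` is adjacent to `h_1, h_2` and the other `b_i`
are adjacent to `h_2, h_3`. These graphs have no clique cutset, no induced minor `K_{2,3}`, long holes
and exponentially many minimal separators.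
-/

set_option autoImplicit false

namespace Pool.Agent.Results.MP_89ca7b_co.LongHoles

/-- `H` is an induced minor of `G`: there are pairwise disjoint connected vertex sets (bags) of `G`,
one for each vertex of `H`, and two bags are joined by an edge of `G` iff the vertices of `H` are
adjacent. (Contracting the bags and deleting the remaining vertices gives `H`.) -/
def IsInducedMinor {W V : Type} (H : SimpleGraph W) (G : SimpleGraph V) : Prop :=
  ∃ B : W → Set V, (∀ w, (G.induce (B w)).Connected) ∧ (∀ w w', w ≠ w' → Disjoint (B w) (B w')) ∧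
    ∀ w w', w ≠ w' → (H.Adj w w' ↔ ∃ x ∈ B w, ∃ y ∈ B w', G.Adj x y)

/-- `G` has a clique cutset: a (possibly empty) clique whose deletion leaves a disconnected graph -/
def HasCliqueCutset {V : Type} (G : SimpleGraph V) : Prop :=
  ∃ C : Set V, G.IsClique C ∧ ¬ (G.induce Cᶜ).Preconnected

/-- `S` is an `(a, b)`-separator: it avoids `a` and `b` and meets every walk from `a` to `b` -/
def IsSeparator {V : Type} (G : SimpleGraph V) (a b : V) (S : Set V) : Prop :=
  a ∉ S ∧ b ∉ S ∧ ∀ w : G.Walk a b, ∃ x ∈ w.support, x ∈ S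

/-- `S` is a minimal separator: an inclusion-minimal `(a, b)`-separator for some non-adjacent pair of
distinct vertices `a`, `b` -/
def IsMinimalSeparator {V : Type} (G : SimpleGraph V) (S : Set V) : Prop :=
  ∃ a b : V, a ≠ b ∧ ¬ G.Adj a b ∧ Minimal (IsSeparator G a b) S

/-! ### connected sets -/

section conn
variable {V : Type} {G : SimpleGraph V}

/-- a closure property of connected sets -/
def Conn (G : SimpleGraph V) (K : Set V) : Prop :=
  ∀ P : V → Prop, (∃ x ∈ K, P x) → (∀ x ∈ K, ∀ y ∈ K, G.Adj x y → P x → P y) → ∀ y ∈ K, P y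

lemma conn_of {K : Set V} (h : (G.induce K).Preconnected) : Conn G K := by
  rintro P ⟨x, hx, hPx⟩ hcl y hy
  obtain ⟨w⟩ := h ⟨x, hx⟩ ⟨y, hy⟩
  have key : ∀ (u v : K) (_ : (G.induce K).Walk u v), P u → P v := by
    intro u v w
    induction w with
    | nil => exact fun h => h
    | @cons u v w huv _ ih => exact fun h => ih (hcl u u.2 v v.2 huv h)
  exact key _ _ w hPx

/-- the second part of a `K_{2,3}`-model can be made large and the three small parts single vertices -/
lemma reduce {K1 K2 : Set V} (h2 : Conn G K2) (hd : Disjoint K1 K2)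
    (hn : ∀ x ∈ K1, ∀ y ∈ K2, ¬ G.Adj x y) :
    ∃ K2' : Set V, Conn G K2' ∧ Disjoint K1 K2' ∧ (∀ x ∈ K1, ∀ y ∈ K2', ¬ G.Adj x y) ∧
      ∀ W : Set V, Conn G W → Disjoint K1 W → Disjoint K2 W → (∃ x ∈ K1, ∃ y ∈ W, G.Adj x y) →
        (∃ x ∈ K2, ∃ y ∈ W, G.Adj x y) → ∃ w ∈ W, w ∉ K1 ∧ w ∉ K2' ∧ (∃ x ∈ K1, G.Adj x w) ∧
          ∃ x ∈ K2', G.Adj x w := by
  let R : Set V := {v | v ∉ K1 ∧ ∀ x ∈ K1, ¬ G.Adj x v}
  let st : V → V → Prop := fun a b => G.Adj a b ∧ a ∈ R ∧ b ∈ R
  let K : Set V := {v | ∃ u ∈ K2, Relation.ReflTransGen st u v}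
  have hK2R : ∀ x ∈ K2, x ∈ R := fun x hx =>
    ⟨fun h => Set.disjoint_left.1 hd h hx, fun y hy => hn y hy x hx⟩
  have hKR : ∀ x ∈ K, x ∈ R := by
    rintro x ⟨u, hu, hux⟩
    rcases Relation.ReflTransGen.cases_tail hux with h | ⟨b, _, hb⟩
    · rw [h]
      exact hK2R u hu
    · exact hb.2.2
  have hstep : ∀ x ∈ K, ∀ y ∈ R, G.Adj x y → y ∈ K := by
    rintro x hx y hy hxy
    obtain ⟨u, hu, hux⟩ := hx
    exact ⟨u, hu, hux.tail ⟨hxy, hKR x ⟨u, hu, hux⟩, hy⟩⟩
  refine ⟨K, ?_, ?_, ?_, ?_⟩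
  · rintro P ⟨x, ⟨u, hu, hux⟩, hPx⟩ hcl y ⟨u', hu', huy⟩
    have hback : ∀ x, Relation.ReflTransGen st u x → P x → P u := by
      intro x hx
      induction hx with
      | refl => exact fun h => h
      | @tail b c hb hbc ih =>
        intro h
        exact ih (hcl c ⟨u, hu, hb.tail hbc⟩ b ⟨u, hu, hb⟩ hbc.1.symm h)
    have h2' : ∀ y ∈ K2, P y := h2 P ⟨u, hu, hback x hux hPx⟩ fun x hx y hy hxy h =>
      hcl x ⟨x, hx, Relation.ReflTransGen.refl⟩ y ⟨y, hy, Relation.ReflTransGen.refl⟩ hxy h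
    have hforw : ∀ y, Relation.ReflTransGen st u' y → P y := by
      intro y hy
      induction hy with
      | refl => exact h2' u' hu'
      | @tail b c hb hbc ih =>
        exact hcl b ⟨u', hu', hb⟩ c ⟨u', hu', hb.tail hbc⟩ hbc.1 ih
    exact hforw y huy
  · rw [Set.disjoint_left]
    exact fun x hx hxK => (hKR x hxK).1 hx
  · exact fun x hx y hy => (hKR y hy).2 x hx
  · rintro W hW hd1 hd2 ⟨x1, hx1, y1, hy1, hxy1⟩ ⟨x2, hx2, y2, hy2, hxy2⟩
    by_contra hcon
    push Not at hcon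
    have hW1 : ∀ z ∈ W, z ∉ K1 := fun z hz h => Set.disjoint_left.1 hd1 h hz
    have hstep2 : ∀ x ∈ K, ∀ z ∈ W, G.Adj x z → z ∈ K := by
      intro x hx z hz hxz
      by_contra hzK
      have hzR : z ∉ R := fun h => hzK (hstep x hx z h hxz)
      have : ∃ x ∈ K1, G.Adj x z := by
        by_contra hno
        push Not at hno
        exact hzR ⟨hW1 z hz, hno⟩
      exact hcon z hz (hW1 z hz) hzK this x hx hxz
    have hall := hW (fun z => z ∈ K) ⟨y2, hy2, hstep2 x2 ⟨x2, hx2, Relation.ReflTransGen.refl⟩ y2 hy2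
      hxy2⟩ (fun x _ y hy hxy hxK => hstep2 x hxK y hy hxy)
    exact (hKR y1 (hall y1 hy1)).2 x1 hx1 hxy1

end conn

/-! ### the graph -/

/-- the vertices: a cycle `h`, and three cliques `b`, `c`, `d` -/
inductive Vx (m t : ℕ)
  | h : Fin (m + 5) → Vx m t
  | b : Fin (t + 2) → Vx m t
  | c : Fin (t + 2) → Vx m t
  | d : Fin (t + 2) → Vx m t

/-- consecutive indices of the cycle -/
def cyc {m : ℕ} (i j : Fin (m + 5)) : Prop :=
  i.val + 1 = j.val ∨ j.val + 1 = i.val ∨ (i.val = 0 ∧ j.val = m + 4) ∨ (j.val = 0 ∧ i.val = m + 4)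

/-- the hole vertices `h_i` adjacent to `b_j`: `h_1, h_2` for `j = 0`, and `h_2, h_3` otherwise -/
def near {m t : ℕ} (i : Fin (m + 5)) (j : Fin (t + 2)) : Prop :=
  (j.val = 0 ∧ (i.val = 1 ∨ i.val = 2)) ∨ (j.val ≠ 0 ∧ (i.val = 2 ∨ i.val = 3))

/-- adjacency -/
def A {m t : ℕ} : Vx m t → Vx m t → Prop
  | .h i, .h j => cyc i j
  | .h i, .b j => near i j
  | .b j, .h i => near i j
  | .h _, .c _ => True
  | .c _, .h _ => True
  | .h _, .d _ => False
  | .d _, .h _ => False
  | .b i, .b j => i ≠ j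
  | .b i, .c j => i ≠ j
  | .c j, .b i => i ≠ j
  | .b _, .d _ => True
  | .d _, .b _ => True
  | .c i, .c j => i ≠ j
  | .c i, .d j => i = j
  | .d j, .c i => i = j
  | .d i, .d j => i ≠ j

/-- the graph -/
def Gr (m t : ℕ) : SimpleGraph (Vx m t) where
  Adj := A
  symm := ⟨by
    rintro (i | i | i | i) (j | j | j | j) h
    · change cyc i j at h
      change cyc j i
      unfold cyc at h ⊢
      omega
    all_goals first | exact h | exact h.symm⟩
  loopless := ⟨by
    rintro (i | i | i | i) h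
    · change cyc i i at h
      unfold cyc at h
      omega
    all_goals exact h rfl⟩

variable {m t : ℕ}

open Vx

@[simp] lemma hh (i j : Fin (m + 5)) : (Gr m t).Adj (h i) (h j) ↔ cyc i j := Iff.rfl
@[simp] lemma hb (i : Fin (m + 5)) (j : Fin (t + 2)) : (Gr m t).Adj (h i) (b j) ↔ near i j := Iff.rfl
@[simp] lemma bh (i : Fin (m + 5)) (j : Fin (t + 2)) : (Gr m t).Adj (b j) (h i) ↔ near i j := Iff.rfl
@[simp] lemma hc (i : Fin (m + 5)) (j : Fin (t + 2)) : (Gr m t).Adj (h i) (c j) ↔ True := Iff.rfl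
@[simp] lemma ch (i : Fin (m + 5)) (j : Fin (t + 2)) : (Gr m t).Adj (c j) (h i) ↔ True := Iff.rfl
@[simp] lemma hd (i : Fin (m + 5)) (j : Fin (t + 2)) : (Gr m t).Adj (h i) (d j) ↔ False := Iff.rfl
@[simp] lemma dh (i : Fin (m + 5)) (j : Fin (t + 2)) : (Gr m t).Adj (d j) (h i) ↔ False := Iff.rfl
@[simp] lemma bb (i j : Fin (t + 2)) : (Gr m t).Adj (b i) (b j) ↔ i ≠ j := Iff.rfl
@[simp] lemma bc (i j : Fin (t + 2)) : (Gr m t).Adj (b i) (c j) ↔ i ≠ j := Iff.rfl
@[simp] lemma cb (i j : Fin (t + 2)) : (Gr m t).Adj (c j) (b i) ↔ i ≠ j := Iff.rfl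
@[simp] lemma bd (i j : Fin (t + 2)) : (Gr m t).Adj (b i) (d j) ↔ True := Iff.rfl
@[simp] lemma db (i j : Fin (t + 2)) : (Gr m t).Adj (d i) (b j) ↔ True := Iff.rfl
@[simp] lemma cc (i j : Fin (t + 2)) : (Gr m t).Adj (c i) (c j) ↔ i ≠ j := Iff.rfl
@[simp] lemma cd (i j : Fin (t + 2)) : (Gr m t).Adj (c i) (d j) ↔ i = j := Iff.rfl
@[simp] lemma dc (i j : Fin (t + 2)) : (Gr m t).Adj (d j) (c i) ↔ i = j := Iff.rfl
@[simp] lemma dd (i j : Fin (t + 2)) : (Gr m t).Adj (d i) (d j) ↔ i ≠ j := Iff.rfl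

/-! ### no induced minor `K_{2,3}` -/

/-- a connected set of hole vertices has at most two neighbours on the hole -/
lemma arc {K : Set (Vx m t)} (hK : Conn (Gr m t) K) (hKh : ∀ v ∈ K, ∃ i, v = h i)
    {x y z : Fin (m + 5)} (hxy : x.val < y.val) (hyz : y.val < z.val) (hx : h x ∉ K) (hy : h y ∉ K)
    (hz : h z ∉ K) (ax : ∃ k, h k ∈ K ∧ cyc k x) (ay : ∃ k, h k ∈ K ∧ cyc k y)
    (az : ∃ k, h k ∈ K ∧ cyc k z) : False := by
  have hne : ∀ k, h k ∈ K → k.val ≠ x.val ∧ k.val ≠ y.val ∧ k.val ≠ z.val := by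
    intro k hk
    refine ⟨fun e => hx ?_, fun e => hy ?_, fun e => hz ?_⟩ <;> (rw [← Fin.ext e]; exact hk)
  obtain ⟨k, hk, hkx⟩ := ax
  obtain ⟨k1, hk1, hky⟩ := ay
  obtain ⟨k2, hk2, hkz⟩ := az
  have key : ∀ Q : ℕ → Prop, (∀ i j : Fin (m + 5), h i ∈ K → h j ∈ K → cyc i j → Q i.val → Q j.val) →
      Q k.val → ∀ i, h i ∈ K → Q i.val := by
    intro Q hcl hQ i hi
    obtain ⟨i', hi', hQi⟩ := hK (fun v => ∃ i, v = h i ∧ Q i.val) ⟨h k, hk, k, rfl, hQ⟩ (by
      rintro u hu v hv huv ⟨i, rfl, hi⟩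
      obtain ⟨j, rfl⟩ := hKh v hv
      exact ⟨j, rfl, hcl i j hu hv huv hi⟩) (h i) hi
    rw [Vx.h.injEq] at hi'
    rw [hi']
    exact hQi
  have lx := x.isLt
  have ly := y.isLt
  have lz := z.isLt
  have lk := k.isLt
  have lk1 := k1.isLt
  have lk2 := k2.isLt
  have nk := hne k hk
  have nk1 := hne k1 hk1
  have nk2 := hne k2 hk2
  unfold cyc at hkx hky hkz
  by_cases c1 : x.val < k.val ∧ k.val < y.val
  · have := key (fun i => x.val < i ∧ i < y.val) (by
      intro i j hi hj hij hQ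
      have := hne i hi
      have := hne j hj
      unfold cyc at hij
      omega) c1 k2 hk2
    omega
  by_cases c2 : y.val < k.val ∧ k.val < z.val
  · have := key (fun i => y.val < i ∧ i < z.val) (by
      intro i j hi hj hij hQ
      have := hne i hi
      have := hne j hj
      unfold cyc at hij
      omega) c2 k hk
    omega
  · have := key (fun i => i < x.val ∨ z.val < i) (by
      intro i j hi hj hij hQ
      have := hne i hi
      have := hne j hj
      have := i.isLt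
      have := j.isLt
      unfold cyc at hij
      omega) (by omega) k1 hk1
    omega

lemma arc3 {K : Set (Vx m t)} (hK : Conn (Gr m t) K) (hKh : ∀ v ∈ K, ∃ i, v = h i)
    {x y z : Fin (m + 5)} (hxy : x ≠ y) (hyz : y ≠ z) (hxz : x ≠ z) (hx : h x ∉ K) (hy : h y ∉ K)
    (hz : h z ∉ K) (ax : ∃ k, h k ∈ K ∧ cyc k x) (ay : ∃ k, h k ∈ K ∧ cyc k y)
    (az : ∃ k, h k ∈ K ∧ cyc k z) : False := by
  have e1 : x.val ≠ y.val := fun e => hxy (Fin.ext e)
  have e2 : y.val ≠ z.val := fun e => hyz (Fin.ext e)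
  have e3 : x.val ≠ z.val := fun e => hxz (Fin.ext e)
  rcases lt_or_gt_of_ne e1 with h1 | h1 <;> rcases lt_or_gt_of_ne e2 with h2 | h2 <;>
    rcases lt_or_gt_of_ne e3 with h3 | h3
  · exact arc hK hKh h1 h2 hx hy hz ax ay az
  · omega
  · exact arc hK hKh h3 h2 hx hz hy ax az ay
  · exact arc hK hKh h3 h1 hz hx hy az ax ay
  · exact arc hK hKh h1 h3 hy hx hz ay ax az
  · exact arc hK hKh h2 h3 hy hz hx ay az ax
  · omega
  · exact arc hK hKh h2 h1 hz hy hx az ay ax

/-- `w` lies outside `K` and has a neighbour in `K` -/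
def Bd (K : Set (Vx m t)) (w : Vx m t) : Prop := w ∉ K ∧ ∃ x ∈ K, (Gr m t).Adj x w

lemma coreC {K1 K2 : Set (Vx m t)} (hd : Disjoint K1 K2)
    (hn : ∀ x ∈ K1, ∀ y ∈ K2, ¬ (Gr m t).Adj x y) {x y : Fin (m + 5)} (hxy : x ≠ y)
    (nxy : ¬ cyc x y) (x2 : Bd K2 (h x)) (y2 : Bd K2 (h y)) {i : Fin (t + 2)} (hi : c i ∈ K1) :
    False := by
  have key : ∀ x, Bd K2 (h x) → near x i := by
    rintro x ⟨_, v, hv, hvx⟩
    rcases v with j | j | j | j
    · exact absurd trivial (hn _ hi _ hv)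
    · have : j = i := by
        by_contra hji
        exact hn _ hi _ hv hji
      rw [← this]
      exact hvx
    · exfalso
      by_cases hij : i = j
      · subst hij
        exact Set.disjoint_left.1 hd hi hv
      · exact hn _ hi _ hv hij
    · exact hvx.elim
  have h1 := key x x2
  have h2 := key y y2
  have h3 : x.val ≠ y.val := fun e => hxy (Fin.ext e)
  unfold near at h1 h2
  unfold cyc at nxy
  omega

lemma coreH {K1 K2 : Set (Vx m t)} (h1 : Conn (Gr m t) K1) (h2 : Conn (Gr m t) K2)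
    (hd : Disjoint K1 K2) (hn : ∀ x ∈ K1, ∀ y ∈ K2, ¬ (Gr m t).Adj x y) {x y : Fin (m + 5)}
    {w : Vx m t} (hxy : x ≠ y) (nxw : ¬ (Gr m t).Adj (h x) w)
    (nyw : ¬ (Gr m t).Adj (h y) w) (hxw : h x ≠ w) (hyw : h y ≠ w) (x1 : Bd K1 (h x))
    (w1 : Bd K1 w) (x2 : Bd K2 (h x)) (y2 : Bd K2 (h y)) (w2 : Bd K2 w)
    (hc1 : ∀ i, c i ∉ K1) (hK2 : ∀ v ∈ K2, ∃ i, v = h i) : False := by
  have bd : ∀ z, Bd K2 (h z) → h z ∉ K2 ∧ ∃ k, h k ∈ K2 ∧ cyc k z := by
    rintro z ⟨h3, v, hv, hvz⟩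
    obtain ⟨k, rfl⟩ := hK2 v hv
    exact ⟨h3, k, hv, hvz⟩
  obtain ⟨x3, x4⟩ := bd x x2
  obtain ⟨y3, y4⟩ := bd y y2
  rcases w with z | j | j | j
  · obtain ⟨z3, z4⟩ := bd z w2
    exact arc3 h2 hK2 hxy (fun e => hyw (by rw [e])) (fun e => hxw (by rw [e])) x3 y3 z3 x4 y4 z4
  · obtain ⟨w3, v, hv, hvw⟩ := w2
    obtain ⟨k, rfl⟩ := hK2 v hv
    have hall : ∀ i, near i j → h i ∈ K2 := by
      intro i hij
      by_contra hi
      have hki : cyc k i := by
        have hne : k.val ≠ i.val := fun e => hi (by rw [← Fin.ext e]; exact hv)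
        change near k j at hvw
        unfold near at hvw hij
        unfold cyc
        omega
      refine arc3 h2 hK2 hxy (z := i) ?_ ?_ x3 y3 hi x4 y4 ⟨k, hv, hki⟩
      · rintro rfl
        exact nyw hij
      · rintro rfl
        exact nxw hij
    have h2K : h (⟨2, by omega⟩ : Fin (m + 5)) ∈ K2 := hall _ (by unfold near; simp; omega)
    have hb1 : ∀ l, b l ∉ K1 := by
      intro l hl
      refine hn _ hl _ h2K ?_
      change near _ l
      unfold near
      simp
      omega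
    obtain ⟨_, v, hv', hvx⟩ := x1
    have hK1 : ∀ v ∈ K1, ∃ i, v = h i := by
      refine h1 (fun v => ∃ i, v = h i) ⟨v, hv', ?_⟩ ?_
      · rcases v with i | i | i | i
        · exact ⟨i, rfl⟩
        · exact absurd hv' (hb1 i)
        · exact absurd hv' (hc1 i)
        · exact hvx.elim
      · rintro u hu v hv huv ⟨i, rfl⟩
        rcases v with l | l | l | l
        · exact ⟨l, rfl⟩
        · exact absurd hv (hb1 l)
        · exact absurd hv (hc1 l)
        · exact huv.elim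
    obtain ⟨_, u, hu, huw⟩ := w1
    obtain ⟨i, rfl⟩ := hK1 u hu
    exact Set.disjoint_left.1 hd hu (hall i huw)
  · exact nxw trivial
  · obtain ⟨_, v, hv, hvw⟩ := w2
    obtain ⟨k, rfl⟩ := hK2 v hv
    exact hvw

lemma core {K1 K2 : Set (Vx m t)} (h1 : Conn (Gr m t) K1) (h2 : Conn (Gr m t) K2)
    (hd : Disjoint K1 K2) (hn : ∀ x ∈ K1, ∀ y ∈ K2, ¬ (Gr m t).Adj x y) {x y : Fin (m + 5)}
    {w : Vx m t} (hxy : x ≠ y) (nxy : ¬ cyc x y) (nxw : ¬ (Gr m t).Adj (h x) w)
    (nyw : ¬ (Gr m t).Adj (h y) w) (hxw : h x ≠ w) (hyw : h y ≠ w) (x1 : Bd K1 (h x))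
    (y1 : Bd K1 (h y)) (w1 : Bd K1 w) (x2 : Bd K2 (h x)) (y2 : Bd K2 (h y)) (w2 : Bd K2 w) :
    False := by
  have hn' : ∀ x ∈ K2, ∀ y ∈ K1, ¬ (Gr m t).Adj x y := fun x hx y hy h => hn y hy x hx h.symm
  by_cases c1 : ∃ i, c i ∈ K1
  · obtain ⟨i, hi⟩ := c1
    exact coreC hd hn hxy nxy x2 y2 hi
  by_cases c2 : ∃ i, c i ∈ K2
  · obtain ⟨i, hi⟩ := c2
    exact coreC hd.symm hn' hxy nxy x1 y1 hi
  push Not at c1 c2
  by_cases b2 : ∀ v ∈ K2, ∃ i, v = h i
  · exact coreH h1 h2 hd hn hxy nxw nyw hxw hyw x1 w1 x2 y2 w2 c1 b2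
  by_cases b1 : ∀ v ∈ K1, ∃ i, v = h i
  · exact coreH h2 h1 hd.symm hn' hxy nxw nyw hxw hyw x2 w2 x1 y1 w1 c2 b1
  push Not at b1 b2
  obtain ⟨u, hu, hu'⟩ := b1
  obtain ⟨v, hv, hv'⟩ := b2
  have huv := hn u hu v hv
  have hne : u ≠ v := fun e => Set.disjoint_left.1 hd hu (e ▸ hv)
  rcases u with i | i | i | i
  · exact hu' i rfl
  · rcases v with j | j | j | j
    · exact hv' j rfl
    · exact huv (fun e => hne (by rw [e]))
    · exact c2 j hv
    · exact huv trivial
  · exact c1 i hu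
  · rcases v with j | j | j | j
    · exact hv' j rfl
    · exact huv trivial
    · exact c2 j hv
    · exact huv (fun e => hne (by rw [e]))

lemma noK23' {K1 K2 : Set (Vx m t)} (h1 : Conn (Gr m t) K1) (h2 : Conn (Gr m t) K2)
    (hd : Disjoint K1 K2) (hn : ∀ x ∈ K1, ∀ y ∈ K2, ¬ (Gr m t).Adj x y) {u v w : Vx m t}
    (nuv : ¬ (Gr m t).Adj u v) (nuw : ¬ (Gr m t).Adj u w) (nvw : ¬ (Gr m t).Adj v w) (huv : u ≠ v)
    (huw : u ≠ w) (hvw : v ≠ w) (u1 : Bd K1 u) (v1 : Bd K1 v) (w1 : Bd K1 w) (u2 : Bd K2 u)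
    (v2 : Bd K2 v) (w2 : Bd K2 w) : False := by
  rcases u with i | i | i | i <;> rcases v with j | j | j | j
  · exact core h1 h2 hd hn (fun e => huv (by rw [e])) nuv nuw nvw huw hvw u1 v1 w1 u2 v2 w2
  all_goals rcases w with l | l | l | l
  all_goals first
    | exact core h1 h2 hd hn (fun e => huw (congrArg h e)) nuw nuv (fun h => nvw h.symm) huv hvw.symm
        u1 w1 v1 u2 w2 v2
    | exact core h1 h2 hd hn (fun e => hvw (congrArg h e)) nvw (fun h => nuv h.symm)
        (fun h => nuw h.symm) huv.symm huw.symm v1 w1 u1 v2 w2 u2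
    | exact nuv trivial
    | exact nuw trivial
    | exact nvw trivial
    | exact nuv (fun e => huv (congrArg b e))
    | exact nuw (fun e => huw (congrArg b e))
    | exact nvw (fun e => hvw (congrArg b e))
    | exact nuv (fun e => huv (congrArg c e))
    | exact nuw (fun e => huw (congrArg c e))
    | exact nvw (fun e => hvw (congrArg c e))
    | exact nuv (fun e => huv (congrArg d e))
    | exact nuw (fun e => huw (congrArg d e))
    | exact nvw (fun e => hvw (congrArg d e))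

/-- there is no induced minor `K_{2,3}` -/
lemma noK23 : ¬ IsInducedMinor (completeBipartiteGraph (Fin 2) (Fin 3)) (Gr m t) := by
  rintro ⟨B, hB, hdis, hadj⟩
  have hn : ∀ x ∈ B (Sum.inl 0), ∀ y ∈ B (Sum.inl 1), ¬ (Gr m t).Adj x y := by
    intro x hx y hy hxy
    have := (hadj (Sum.inl 0) (Sum.inl 1) (by simp)).2 ⟨x, hx, y, hy, hxy⟩
    simp at this
  obtain ⟨K2, hK2, hd2, hn2, hW⟩ := reduce (conn_of (hB (Sum.inl 1)).preconnected)
    (hdis (Sum.inl 0) (Sum.inl 1) (by simp)) hn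
  have hw : ∀ i : Fin 3, ∃ w ∈ B (Sum.inr i), Bd (B (Sum.inl 0)) w ∧ Bd K2 w := by
    intro i
    obtain ⟨w, hw, h3, h4, h5, h6⟩ := hW (B (Sum.inr i)) (conn_of (hB (Sum.inr i)).preconnected)
      (hdis (Sum.inl 0) (Sum.inr i) (by simp)) (hdis (Sum.inl 1) (Sum.inr i) (by simp))
      ((hadj (Sum.inl 0) (Sum.inr i) (by simp)).1 (by simp))
      ((hadj (Sum.inl 1) (Sum.inr i) (by simp)).1 (by simp))
    exact ⟨w, hw, ⟨h3, h5⟩, h4, h6⟩
  choose w hwB hw1 hw2 using hw
  have hne : ∀ i j, i ≠ j → w i ≠ w j := by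
    intro i j hij e
    exact Set.disjoint_left.1 (hdis (Sum.inr i) (Sum.inr j) (by simpa using hij)) (hwB i)
      (e ▸ hwB j)
  have hna : ∀ i j, i ≠ j → ¬ (Gr m t).Adj (w i) (w j) := by
    intro i j hij e
    have := (hadj (Sum.inr i) (Sum.inr j) (by simpa using hij)).2 ⟨_, hwB i, _, hwB j, e⟩
    simp at this
  exact noK23' (conn_of (hB (Sum.inl 0)).preconnected) hK2 hd2 hn2 (hna 0 1 (by decide))
    (hna 0 2 (by decide)) (hna 1 2 (by decide)) (hne 0 1 (by decide)) (hne 0 2 (by decide))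
    (hne 1 2 (by decide)) (hw1 0) (hw1 1) (hw1 2) (hw2 0) (hw2 1) (hw2 2)

/-! ### no clique cutset -/

section cut
variable {C : Set (Vx m t)} (hC : (Gr m t).IsClique C)

/-- reachability outside `C` -/
def Rch (C : Set (Vx m t)) (u v : Vx m t) : Prop :=
  Relation.ReflTransGen (fun a b => (Gr m t).Adj a b ∧ a ∉ C ∧ b ∉ C) u v

lemma Rch.symm {u v : Vx m t} (h : Rch C u v) : Rch C v u := by
  induction h with
  | refl => exact Relation.ReflTransGen.refl
  | @tail b c _ hbc ih => exact Relation.ReflTransGen.head ⟨hbc.1.symm, hbc.2.2, hbc.2.1⟩ ih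

lemma Rch.step {u v : Vx m t} (hu : u ∉ C) (hv : v ∉ C) (huv : (Gr m t).Adj u v) : Rch C u v :=
  Relation.ReflTransGen.single ⟨huv, hu, hv⟩

lemma Rch.reach {u v : Vx m t} (h : Rch C u v) (hu : u ∉ C) (hv : v ∉ C) :
    ((Gr m t).induce Cᶜ).Reachable ⟨u, hu⟩ ⟨v, hv⟩ := by
  induction h with
  | refl => exact SimpleGraph.Reachable.refl _
  | @tail b c _ hbc ih =>
    refine (ih hbc.2.1).trans ?_
    apply SimpleGraph.Adj.reachable
    exact hbc.1

lemma seg : ∀ (n : ℕ) (i j : Fin (m + 5)), i.val + n = j.val →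
    (∀ l : Fin (m + 5), i.val ≤ l.val → l.val ≤ j.val → (h l : Vx m t) ∉ C) →
    Rch C (h i) (h j) := by
  intro n
  induction n with
  | zero =>
    intro i j hij _
    rw [Fin.ext (a := i) (b := j) (by omega)]
    exact Relation.ReflTransGen.refl
  | succ n ih =>
    intro i j hij hl
    have hj := j.isLt
    refine Relation.ReflTransGen.head ⟨?_, hl i le_rfl (by omega), hl ⟨i.val + 1, by omega⟩
      (by simp) (by simp; omega)⟩ (ih ⟨i.val + 1, by omega⟩ j (by simp; omega) ?_)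
    · change cyc _ _
      unfold cyc
      simp
    · intro l h1 h2
      exact hl l (by simp at h1; omega) h2

include hC

lemma hole_reach' {i j : Fin (m + 5)} (hij : i.val ≤ j.val) (hi : (h i : Vx m t) ∉ C)
    (hj : (h j : Vx m t) ∉ C) : Rch C (h i) (h j) := by
  have li := i.isLt
  have lj := j.isLt
  by_cases hall : ∀ l : Fin (m + 5), i.val ≤ l.val → l.val ≤ j.val → (h l : Vx m t) ∉ C
  · exact seg (j.val - i.val) i j (by omega) hall
  push Not at hall
  obtain ⟨u, hu1, hu2, hu⟩ := hall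
  have hui : u.val ≠ i.val := fun e => hi (by rw [← Fin.ext e]; exact hu)
  have huj : u.val ≠ j.val := fun e => hj (by rw [← Fin.ext e]; exact hu)
  have hout : ∀ l : Fin (m + 5), (l.val ≤ i.val ∨ j.val ≤ l.val) → (h l : Vx m t) ∉ C := by
    intro l hl hlC
    have hne : l.val ≠ i.val := fun e => hi (by rw [← Fin.ext e]; exact hlC)
    have hne' : l.val ≠ j.val := fun e => hj (by rw [← Fin.ext e]; exact hlC)
    have ll := l.isLt
    have hadj : cyc l u := hC hlC hu (by
      intro e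
      rw [Vx.h.injEq] at e
      subst e
      omega)
    unfold cyc at hadj
    omega
  have h0 : Rch C (h ⟨0, by omega⟩) (h i) := seg i.val ⟨0, by omega⟩ i (by simp)
    (fun l _ h2 => hout l (Or.inl h2))
  have h1 : Rch C (h j) (h ⟨m + 4, by omega⟩) := seg (m + 4 - j.val) j ⟨m + 4, by omega⟩
    (by simp; omega) (fun l h2 _ => hout l (Or.inr h2))
  have h2 : Rch C (h ⟨0, by omega⟩) (h ⟨m + 4, by omega⟩) :=
    Rch.step (hout _ (Or.inl (by simp))) (hout _ (Or.inr (by simp; omega))) (by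
      change cyc _ _
      unfold cyc
      simp)
  exact (h0.symm.trans h2).trans h1.symm

lemma hole_reach {i j : Fin (m + 5)} (hi : (h i : Vx m t) ∉ C) (hj : (h j : Vx m t) ∉ C) :
    Rch C (h i) (h j) := by
  rcases le_total i.val j.val with h1 | h1
  · exact hole_reach' hC h1 hi hj
  · exact (hole_reach' hC h1 hj hi).symm

lemma exists_hole : ∃ i, (h i : Vx m t) ∉ C := by
  by_contra hcon
  push Not at hcon
  have hadj : cyc (⟨0, by omega⟩ : Fin (m + 5)) ⟨2, by omega⟩ := hC (hcon ⟨0, by omega⟩)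
    (hcon ⟨2, by omega⟩) (by simp)
  unfold cyc at hadj
  simp at hadj

lemma to_hole_b (j : Fin (t + 2)) (hj : (b j : Vx m t) ∉ C) :
    ∃ i, (h i : Vx m t) ∉ C ∧ Rch C (b j) (h i) := by
  by_cases hj0 : j.val = 0
  · by_cases c1 : (h ⟨1, by omega⟩ : Vx m t) ∈ C
    · by_cases c2 : (h ⟨2, by omega⟩ : Vx m t) ∈ C
      · have c3 : (h ⟨3, by omega⟩ : Vx m t) ∉ C := by
          intro c3
          have hadj : cyc (⟨1, by omega⟩ : Fin (m + 5)) ⟨3, by omega⟩ := hC c1 c3 (by simp)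
          unfold cyc at hadj
          simp at hadj
        have c4 : (b ⟨1, by omega⟩ : Vx m t) ∉ C := by
          intro c4
          have hadj : near (⟨1, by omega⟩ : Fin (m + 5)) (⟨1, by omega⟩ : Fin (t + 2)) :=
            hC c1 c4 (by simp)
          unfold near at hadj
          simp at hadj
        refine ⟨_, c3, (Rch.step hj c4 ?_).trans (Rch.step c4 c3 ?_)⟩
        · change j ≠ _
          intro e
          rw [e] at hj0
          simp at hj0
        · change near _ _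
          unfold near
          simp
      · refine ⟨_, c2, Rch.step hj c2 ?_⟩
        change near _ _
        unfold near
        simp [hj0]
    · refine ⟨_, c1, Rch.step hj c1 ?_⟩
      change near _ _
      unfold near
      simp [hj0]
  · by_cases c2 : (h ⟨2, by omega⟩ : Vx m t) ∈ C
    · by_cases c3 : (h ⟨3, by omega⟩ : Vx m t) ∈ C
      · have c1 : (h ⟨1, by omega⟩ : Vx m t) ∉ C := by
          intro c1
          have hadj : cyc (⟨1, by omega⟩ : Fin (m + 5)) ⟨3, by omega⟩ := hC c1 c3 (by simp)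
          unfold cyc at hadj
          simp at hadj
        have c4 : (b ⟨0, by omega⟩ : Vx m t) ∉ C := by
          intro c4
          have hadj : near (⟨3, by omega⟩ : Fin (m + 5)) (⟨0, by omega⟩ : Fin (t + 2)) :=
            hC c3 c4 (by simp)
          unfold near at hadj
          simp at hadj
        refine ⟨_, c1, (Rch.step hj c4 ?_).trans (Rch.step c4 c1 ?_)⟩
        · change j ≠ _
          intro e
          rw [e] at hj0
          simp at hj0
        · change near _ _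
          unfold near
          simp
      · refine ⟨_, c3, Rch.step hj c3 ?_⟩
        change near _ _
        unfold near
        simp [hj0]
    · refine ⟨_, c2, Rch.step hj c2 ?_⟩
      change near _ _
      unfold near
      simp [hj0]

lemma to_hole (v : Vx m t) (hv : v ∉ C) : ∃ i, (h i : Vx m t) ∉ C ∧ Rch C v (h i) := by
  rcases v with i | j | j | j
  · exact ⟨i, hv, Relation.ReflTransGen.refl⟩
  · exact to_hole_b hC j hv
  · obtain ⟨i, hi⟩ := exists_hole hC
    exact ⟨i, hi, Rch.step hv hi trivial⟩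
  · by_cases hb : ∃ l, (b l : Vx m t) ∉ C
    · obtain ⟨l, hl⟩ := hb
      obtain ⟨i, hi, hr⟩ := to_hole_b hC l hl
      exact ⟨i, hi, (Rch.step hv hl trivial).trans hr⟩
    · push Not at hb
      have hcj : (c j : Vx m t) ∉ C := by
        intro hcj
        have hadj : j ≠ j := hC (hb j) hcj (by simp)
        exact hadj rfl
      obtain ⟨i, hi⟩ := exists_hole hC
      exact ⟨i, hi, (Rch.step hv hcj rfl).trans (Rch.step hcj hi trivial)⟩

lemma noCut : ((Gr m t).induce Cᶜ).Preconnected := by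
  rintro ⟨u, hu⟩ ⟨v, hv⟩
  obtain ⟨i, hi, hui⟩ := to_hole hC u hu
  obtain ⟨j, hj, hvj⟩ := to_hole hC v hv
  exact Rch.reach ((hui.trans (hole_reach hC hi hj)).trans (Rch.symm hvj)) hu hv

end cut

/-! ### minimal separators -/

/-- the minimal separator of the set `I` of indices -/
def Sp (I : Set (Fin (t + 2))) : Set (Vx m t) :=
  {v | (∃ i, v = b i) ∨ (∃ i ∈ I, v = d i) ∨ ∃ i, i ∉ I ∧ v = c i}

lemma Sp_h (I : Set (Fin (t + 2))) (i : Fin (m + 5)) : (h i : Vx m t) ∉ Sp I := by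
  simp [Sp]

lemma Sp_b (I : Set (Fin (t + 2))) (i : Fin (t + 2)) : (b i : Vx m t) ∈ Sp I := by
  simp [Sp]

lemma Sp_c (I : Set (Fin (t + 2))) (i : Fin (t + 2)) : (c i : Vx m t) ∈ Sp I ↔ i ∉ I := by
  simp [Sp]

lemma Sp_d (I : Set (Fin (t + 2))) (i : Fin (t + 2)) : (d i : Vx m t) ∈ Sp I ↔ i ∈ I := by
  simp [Sp]

lemma sep3 {V : Type} {G : SimpleGraph V} {a b x : V} {T : Set V} (hT : IsSeparator G a b T)
    (h1 : G.Adj a x) (h2 : G.Adj x b) : x ∈ T := by
  obtain ⟨y, hy, hyT⟩ := hT.2.2 (.cons h1 (.cons h2 .nil))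
  simp only [SimpleGraph.Walk.support_cons, SimpleGraph.Walk.support_nil, List.mem_cons,
    List.not_mem_nil, or_false] at hy
  rcases hy with rfl | rfl | rfl
  · exact absurd hyT hT.1
  · exact hyT
  · exact absurd hyT hT.2.1

lemma sep4 {V : Type} {G : SimpleGraph V} {a b x y : V} {T : Set V} (hT : IsSeparator G a b T)
    (h1 : G.Adj a x) (h2 : G.Adj x y) (h3 : G.Adj y b) : x ∈ T ∨ y ∈ T := by
  obtain ⟨z, hz, hzT⟩ := hT.2.2 (.cons h1 (.cons h2 (.cons h3 .nil)))
  simp only [SimpleGraph.Walk.support_cons, SimpleGraph.Walk.support_nil, List.mem_cons,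
    List.not_mem_nil, or_false] at hz
  rcases hz with rfl | rfl | rfl | rfl
  · exact absurd hzT hT.1
  · exact Or.inl hzT
  · exact Or.inr hzT
  · exact absurd hzT hT.2.1

lemma Sp_minimal {I : Set (Fin (t + 2))} {j : Fin (t + 2)} (hj : j ∉ I) :
    IsMinimalSeparator (Gr m t) (Sp I) := by
  refine ⟨h ⟨2, by omega⟩, d j, by simp, fun h => h, ⟨Sp_h _ _, fun h => hj ((Sp_d I j).1 h), ?_⟩, ?_⟩
  · intro w
    have key : ∀ (u v : Vx m t) (w : (Gr m t).Walk u v), ((∃ i, u = h i) ∨ ∃ i ∈ I, u = c i) →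
        ¬ ((∃ i, v = h i) ∨ ∃ i ∈ I, v = c i) → ∃ x ∈ w.support, x ∈ Sp I := by
      intro u v w
      induction w with
      | nil => exact fun h1 h2 => absurd h1 h2
      | @cons u u' v huv w ih =>
        intro h1 h2
        by_cases h3 : (∃ i, u' = h i) ∨ ∃ i ∈ I, u' = c i
        · obtain ⟨x, hx, hxS⟩ := ih h3 h2
          exact ⟨x, by simp [hx], hxS⟩
        · refine ⟨u', by simp, ?_⟩
          push Not at h3
          rcases u' with i | i | i | i
          · exact absurd rfl (h3.1 i)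
          · exact Sp_b I i
          · exact (Sp_c I i).2 fun hi => h3.2 i hi rfl
          · rcases h1 with ⟨l, rfl⟩ | ⟨l, hl, rfl⟩
            · exact absurd huv (fun h => h)
            · have hli : l = i := huv
              subst hli
              exact (Sp_d I l).2 hl
    refine key _ _ w (Or.inl ⟨_, rfl⟩) (by simp)
  · rintro T ⟨hT1, hT2, hT⟩ hTS x hx
    by_contra hxT
    have hout : ∀ y, y ∉ Sp I → y ∉ T := fun y hy hyT => hy (hTS hyT)
    have hnear : ∀ i : Fin (t + 2), near (⟨2, by omega⟩ : Fin (m + 5)) i := by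
      intro i
      unfold near
      simp
      omega
    have hTs : IsSeparator (Gr m t) (h ⟨2, by omega⟩) (d j) T := ⟨hT1, hT2, hT⟩
    rcases x with i | i | i | i
    · exact Sp_h I i hx
    · exact hxT (sep3 hTs (hnear i) trivial)
    · have hi := (Sp_c I i).1 hx
      by_cases hij : i = j
      · subst hij
        exact hxT (sep3 hTs trivial rfl)
      · rcases sep4 hTs (x := c i) (y := d i) trivial rfl hij with h1 | h1
        · exact hxT h1
        · exact hout _ (fun h => hi ((Sp_d I i).1 h)) h1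
    · have hi := (Sp_d I i).1 hx
      have hij : i ≠ j := fun e => hj (e ▸ hi)
      rcases sep4 hTs (x := c i) (y := d i) trivial rfl hij with h1 | h1
      · exact hout _ (fun h => (Sp_c I i).1 h hi) h1
      · exact hxT h1

/-! ### counting -/

/-- the vertices as a sum type -/
def eqv (m t : ℕ) : Vx m t ≃ Fin (m + 5) ⊕ Fin (t + 2) ⊕ Fin (t + 2) ⊕ Fin (t + 2) where
  toFun
    | .h i => .inl i
    | .b i => .inr (.inl i)
    | .c i => .inr (.inr (.inl i))
    | .d i => .inr (.inr (.inr i))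
  invFun
    | .inl i => .h i
    | .inr (.inl i) => .b i
    | .inr (.inr (.inl i)) => .c i
    | .inr (.inr (.inr i)) => .d i
  left_inv := by rintro (i | i | i | i) <;> rfl
  right_inv := by rintro (i | i | i | i) <;> rfl

instance : Fintype (Vx m t) := Fintype.ofEquiv _ (eqv m t).symm

lemma card_Vx : Fintype.card (Vx m t) = m + 11 + 3 * t := by
  rw [Fintype.card_congr (eqv m t)]
  simp only [Fintype.card_sum, Fintype.card_fin]
  omega

lemma many : 2 ^ (t + 1) ≤ {S : Set (Vx m t) | IsMinimalSeparator (Gr m t) S}.ncard := by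
  let f : Finset (Fin (t + 1)) → Set (Vx m t) := fun J => Sp {i | ∃ l ∈ J, i = l.succ}
  have hf : Function.Injective f := by
    intro J J' hJ
    ext l
    have h1 := Sp_d (m := m) {i | ∃ l ∈ J, i = l.succ} l.succ
    have h2 := Sp_d (m := m) {i | ∃ l ∈ J', i = l.succ} l.succ
    have h3 : Sp (m := m) {i | ∃ l ∈ J, i = l.succ} = Sp {i | ∃ l ∈ J', i = l.succ} := hJ
    rw [h3, h2] at h1
    simpa using h1.symm
  have hsub : Set.range f ⊆ {S : Set (Vx m t) | IsMinimalSeparator (Gr m t) S} := by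
    rintro _ ⟨J, rfl⟩
    refine Sp_minimal (j := 0) ?_
    rintro ⟨l, _, hl⟩
    exact Fin.succ_ne_zero l hl.symm
  calc 2 ^ (t + 1) = (Set.range f).ncard := by
        rw [← Set.image_univ, Set.ncard_image_of_injective _ hf, Set.ncard_univ,
          Nat.card_eq_fintype_card, Fintype.card_finset, Fintype.card_fin]
    _ ≤ _ := Set.ncard_le_ncard hsub (Set.toFinite _)

open Polynomial in
lemma poly_small (q : ℝ[X]) : ∃ n : ℕ, q.eval (n : ℝ) < 2 ^ (n + 1) := by
  have h : (fun n : ℕ => q.eval (n : ℝ)) =o[Filter.atTop] fun n : ℕ => (2 : ℝ) ^ n := by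
    have h1 : (fun n : ℕ => q.eval (n : ℝ)) =
        fun n : ℕ => ∑ i ∈ Finset.range (q.natDegree + 1), q.coeff i * (n : ℝ) ^ i := by
      funext n
      rw [Polynomial.eval_eq_sum_range]
    rw [h1]
    refine Asymptotics.IsLittleO.fun_sum (fun i _ => ?_)
    have h3 : (fun n : ℕ => (n : ℝ) ^ i) =o[Filter.atTop] fun n : ℕ => (2 : ℝ) ^ n :=
      isLittleO_pow_const_const_pow_of_one_lt (R := ℝ) i (one_lt_two (α := ℝ))
    exact h3.const_mul_left (q.coeff i)
  have h2 := h.def (c := 1) one_pos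
  obtain ⟨n, hn⟩ := h2.exists
  refine ⟨n, ?_⟩
  have h3 : q.eval (n : ℝ) ≤ 2 ^ n := by
    have := (le_abs_self _).trans hn
    simpa using this
  have h4 : (0 : ℝ) < 2 ^ n := by positivity
  rw [pow_succ]
  linarith

lemma cyc_adj {n : ℕ} (hn : 4 ≤ n) (i j : Fin n) (hij : i.val < j.val) :
    (SimpleGraph.cycleGraph n).Adj i j ↔ j.val = i.val + 1 ∨ (i.val = 0 ∧ j.val + 1 = n) := by
  rw [SimpleGraph.cycleGraph_adj']
  have h1 : (i - j).val = n - j.val + i.val := by
    rw [Fin.sub_def]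
    simp only
    rw [Nat.mod_eq_of_lt]
    omega
  have h2 : (j - i).val = j.val - i.val := by
    rw [Fin.sub_def]
    simp only
    have : n - i.val + j.val = n + (j.val - i.val) := by omega
    rw [this, Nat.add_mod_left, Nat.mod_eq_of_lt]
    omega
  rw [h1, h2]
  omega

/-- the hole -/
def hole (m t : ℕ) : SimpleGraph.cycleGraph (m + 5) ↪g Gr m t :=
  ⟨⟨h, fun i j e => by simpa using e⟩, by
    intro i j
    change cyc i j ↔ _
    have li := i.isLt
    have lj := j.isLt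
    unfold cyc
    rcases lt_trichotomy i.val j.val with h1 | h1 | h1
    · rw [cyc_adj (by omega) i j h1]
      omega
    · have : i = j := Fin.ext h1
      subst this
      simp only [SimpleGraph.irrefl, iff_false]
      omega
    · rw [SimpleGraph.adj_comm, cyc_adj (by omega) j i h1]
      omega⟩

/-- **Answer to Q1: no.** For every polynomial `p` and every `k` there is a finite graph without a
clique cutset and without an induced minor `K_{2,3}` that has more than `p(|V|)` minimal separators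
and a hole of length at least `k`. -/
theorem result (p : Polynomial ℝ) (k : ℕ) : ∃ (V : Type) (_ : Fintype V) (G : SimpleGraph V),
    ¬ HasCliqueCutset G ∧ ¬ IsInducedMinor (completeBipartiteGraph (Fin 2) (Fin 3)) G ∧
    p.eval (Fintype.card V : ℝ) < ({S : Set V | IsMinimalSeparator G S}.ncard : ℝ) ∧
    ∃ n : ℕ, k ≤ n ∧ 4 ≤ n ∧ Nonempty (SimpleGraph.cycleGraph n ↪g G) := by
  obtain ⟨t, ht⟩ := poly_small (p.comp (Polynomial.C (k + 11 : ℝ) + Polynomial.C 3 * Polynomial.X))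
  refine ⟨Vx k t, inferInstance, Gr k t, ?_, noK23, ?_, k + 5, by omega, by omega, ⟨hole k t⟩⟩
  · rintro ⟨C, hC, hn⟩
    exact hn (noCut hC)
  · have h1 : (2 : ℝ) ^ (t + 1) ≤ ({S : Set (Vx k t) | IsMinimalSeparator (Gr k t) S}.ncard : ℝ) := by
      exact_mod_cast many (m := k) (t := t)
    refine lt_of_lt_of_le ?_ h1
    rw [card_Vx]
    rw [Polynomial.eval_comp] at ht
    simpa using ht

end Pool.Agent.Results.MP_89ca7b_co.LongHoles
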